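import Pool.Agent.V5helper49.IR.Stm

/-!
# Project IR, piece LWR: the number of elements (helper9)
-/

set_option autoImplicit false

namespace Pool.Agent.V5helper9.IR

open Finset MeasureTheory ProbabilityTheory Filter Topology
open scoped ENNReal

/-- the indicator of `n ∈ A` -/
noncomputable def X {Ω : Type*} (A : Ω → Set ℕ) (n : ℕ) : Ω → ℝ :=
  Set.indicator {ω | n ∈ A ω} (fun _ => (1 : ℝ))

section
variable {Ω : Type*} [MeasurableSpace Ω] (μ : Measure Ω) [IsProbabilityMeasure μ] (A : Ω → Set ℕ)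
  (hA : ∀ n, MeasurableSet {ω | n ∈ A ω})

include hA in
lemma X_memLp (n : ℕ) : MemLp (X A n) 2 μ :=
  memLp_indicator_const 2 (hA n) 1 (Or.inr (measure_ne_top μ _))

omit [IsProbabilityMeasure μ] in
include hA in
lemma X_int (n : ℕ) : ∫ ω, X A n ω ∂μ = μ.real {ω | n ∈ A ω} := by
  unfold X
  rw [integral_indicator_const _ (hA n)]
  simp

include hA in
lemma X_var (n : ℕ) : variance (X A n) μ ≤ μ.real {ω | n ∈ A ω} := by
  refine (variance_le_expectation_sq (X_memLp μ A hA n).1).trans (le_of_eq ?_)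
  have h : (X A n) ^ 2 = X A n := by
    ext ω
    by_cases h : ω ∈ {ω | n ∈ A ω}
    · simp only [X, Pi.pow_apply, Set.indicator_of_mem h]; norm_num
    · simp only [X, Pi.pow_apply, Set.indicator_of_notMem h]; norm_num
  rw [h]
  exact X_int μ A hA n

include hA in
lemma cnt_var (hI : iIndepSet (fun n => {ω | n ∈ A ω}) μ) (N : ℕ) :
    variance (∑ k ∈ range N, X A k) μ ≤ ∑ k ∈ range N, μ.real {ω | k ∈ A ω} := by
  have hI' : iIndepFun (fun n => X A n) μ := hI.iIndepFun_indicator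
  rw [IndepFun.variance_sum (fun i _ => X_memLp μ A hA i) (fun i _ j _ hij => hI'.indepFun hij)]
  exact Finset.sum_le_sum fun i _ => X_var μ A hA i

include hA in
lemma cnt_int (N : ℕ) :
    ∫ ω, (∑ k ∈ range N, X A k) ω ∂μ = ∑ k ∈ range N, μ.real {ω | k ∈ A ω} := by
  simp only [Finset.sum_apply]
  rw [integral_finsetSum _ (fun i _ => (X_memLp μ A hA i).integrable (by norm_num))]
  exact Finset.sum_congr rfl fun i _ => X_int μ A hA i

include hA in
lemma cheb (hI : iIndepSet (fun n => {ω | n ∈ A ω}) μ) (N : ℕ)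
    (hS : 0 < ∑ k ∈ range N, μ.real {ω | k ∈ A ω}) :
    μ {ω | (∑ k ∈ range N, X A k) ω < (∑ k ∈ range N, μ.real {ω | k ∈ A ω}) / 2} ≤
      ENNReal.ofReal (4 / (∑ k ∈ range N, μ.real {ω | k ∈ A ω})) := by
  have hv := cnt_var μ A hA hI N
  have hi := cnt_int μ A hA N
  set S := ∑ k ∈ range N, μ.real {ω | k ∈ A ω} with hSd
  have hL : MemLp (∑ k ∈ range N, X A k) 2 μ := memLp_finsetSum' _ (fun i _ => X_memLp μ A hA i)
  have hc := meas_ge_le_variance_div_sq hL (c := S / 2) (by positivity)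
  refine (measure_mono ?_).trans (hc.trans (ENNReal.ofReal_le_ofReal ?_))
  · intro ω hω
    rw [Set.mem_ofPred_eq] at hω ⊢
    rw [hi]
    rw [abs_sub_comm]
    exact le_trans (by linarith) (le_abs_self _)
  · rw [div_le_div_iff₀ (by positivity) hS]
    nlinarith [mul_le_mul_of_nonneg_right hv hS.le]
end

open Classical in
lemma cnt_eq {Ω : Type*} (A : Ω → Set ℕ) (N : ℕ) (ω : Ω) :
    (((range N).filter (fun k => k ∈ A ω)).card : ℝ) = (∑ k ∈ range N, X A k) ω := by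
  rw [Finset.sum_apply, Finset.card_filter]
  push_cast
  refine Finset.sum_congr rfl fun k _ => ?_
  by_cases h : k ∈ A ω
  · have h' : ω ∈ {ω | k ∈ A ω} := h
    simp only [X, Set.indicator_of_mem h', h, if_true]
  · have h' : ω ∉ {ω | k ∈ A ω} := h
    simp only [X, Set.indicator_of_notMem h', h, if_false]

/-- the values at powers of two control all values -/
lemma log_two_pow (N i : ℕ) (hi : 1 ≤ i) (h1 : 2 ^ i ≤ N) (h2 : N < 2 ^ (i + 1)) :
    Real.sqrt (N * Real.log N) ≤ 2 * Real.sqrt (((2 ^ i : ℕ) : ℝ) * Real.log ((2 ^ i : ℕ) : ℝ)) := by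
  have hN : (N : ℝ) ≤ 2 * (2 : ℝ) ^ i := by
    have : (N : ℝ) < (2 : ℝ) ^ (i + 1) := by exact_mod_cast h2
    rw [pow_succ] at this
    linarith
  have hN1 : (1 : ℝ) ≤ N := by
    have : 1 ≤ N := le_trans Nat.one_le_two_pow h1
    exact_mod_cast this
  have hl : Real.log N ≤ 2 * (i * Real.log 2) := by
    have h3 : Real.log N ≤ Real.log ((2 : ℝ) ^ (i + 1)) := by
      apply Real.log_le_log (by linarith)
      have : (N : ℝ) < (2 : ℝ) ^ (i + 1) := by exact_mod_cast h2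
      exact this.le
    rw [Real.log_pow] at h3
    push_cast at h3
    have h4 : (1 : ℝ) ≤ i := by exact_mod_cast hi
    have h5 : 0 < Real.log 2 := Real.log_pos (by norm_num)
    nlinarith
  have h0 : 0 ≤ Real.log N := Real.log_nonneg hN1
  have h6 : (N : ℝ) * Real.log N ≤ 4 * (((2 ^ i : ℕ) : ℝ) * Real.log ((2 ^ i : ℕ) : ℝ)) := by
    push_cast
    rw [Real.log_pow]
    calc (N : ℝ) * Real.log N ≤ (2 * (2 : ℝ) ^ i) * (2 * (i * Real.log 2)) :=
          mul_le_mul hN hl h0 (by positivity)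
      _ = _ := by ring
  calc Real.sqrt (N * Real.log N) ≤ Real.sqrt (4 * (((2 ^ i : ℕ) : ℝ) * Real.log ((2 ^ i : ℕ) : ℝ))) :=
        Real.sqrt_le_sqrt h6
    _ = _ := by
        rw [Real.sqrt_mul (by norm_num)]
        congr 1
        rw [show (4 : ℝ) = 2 ^ 2 by norm_num]
        exact Real.sqrt_sq (by norm_num)

lemma pow_lower (i : ℕ) (hi : 1 ≤ i) :
    (Real.sqrt 2) ^ i / 2 ≤ Real.sqrt (((2 ^ i : ℕ) : ℝ) * Real.log ((2 ^ i : ℕ) : ℝ)) := by
  apply Real.le_sqrt_of_sq_le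
  push_cast
  rw [Real.log_pow, div_pow, ← pow_mul, mul_comm i 2, pow_mul, Real.sq_sqrt (by norm_num)]
  have h4 : (1 : ℝ) ≤ i := by exact_mod_cast hi
  have h5 : 0.6931471803 < Real.log 2 := Real.log_two_gt_d9
  have h6 : (1 : ℝ) / 4 ≤ i * Real.log 2 := by nlinarith
  have h7 : (0 : ℝ) < 2 ^ i := by positivity
  calc (2 : ℝ) ^ i / 2 ^ 2 = 2 ^ i * (1 / 4) := by ring
    _ ≤ 2 ^ i * (i * Real.log 2) := by gcongr

/-- **LWR** -/
theorem t_LWR.{u} : Pool.Agent.V5helper49.IR.S_LWR.{u} := by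
  classical
  intro c hc Ω _ μ _ A hA hI hE
  rw [eventually_atTop] at hE
  obtain ⟨N₀, hN₀⟩ := hE
  -- all scales `i ≥ j₀`
  set j₀ := N₀ + 1 with hj₀
  have hbig : ∀ i, j₀ ≤ i → N₀ ≤ 2 ^ i := fun i hi => by
    have := Nat.lt_two_pow_self (n := i)
    omega
  set T : ℕ → ℝ := fun N => ∑ k ∈ range N, μ.real {ω | k ∈ A ω} with hT
  have hlow : ∀ i, j₀ ≤ i → c * ((Real.sqrt 2) ^ i / 2) ≤ T (2 ^ i + 1) := by
    intro i hi
    exact le_trans (mul_le_mul_of_nonneg_left (pow_lower i (by omega)) hc.le) (hN₀ (2 ^ i) (hbig i hi))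
  have hs2 : (0 : ℝ) < Real.sqrt 2 := by positivity
  have hs2' : (1 : ℝ) < Real.sqrt 2 := by
    rw [show (1 : ℝ) = Real.sqrt 1 by simp]
    exact Real.sqrt_lt_sqrt (by norm_num) (by norm_num)
  have hbound : ∀ j, μ {ω | (∑ k ∈ range (2 ^ (j + j₀) + 1), X A k) ω < T (2 ^ (j + j₀) + 1) / 2} ≤
      ENNReal.ofReal ((8 / c) * ((Real.sqrt 2)⁻¹) ^ j) := by
    intro j
    have h1 := hlow (j + j₀) (by omega)
    have h2 : 0 < c * ((Real.sqrt 2) ^ (j + j₀) / 2) := by positivity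
    refine (cheb μ A hA hI (2 ^ (j + j₀) + 1) (lt_of_lt_of_le h2 h1)).trans
      (ENNReal.ofReal_le_ofReal ?_)
    calc 4 / (∑ k ∈ range (2 ^ (j + j₀) + 1), μ.real {ω | k ∈ A ω})
        ≤ 4 / (c * ((Real.sqrt 2) ^ j / 2)) := by
          apply div_le_div_of_nonneg_left (by norm_num) (by positivity)
          refine le_trans ?_ h1
          have : (Real.sqrt 2) ^ j ≤ (Real.sqrt 2) ^ (j + j₀) :=
            pow_le_pow_right₀ hs2'.le (by omega)
          gcongr
      _ = (8 / c) * ((Real.sqrt 2)⁻¹) ^ j := by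
          rw [inv_pow]
          field_simp
          norm_num
  have hsum : Summable (fun j : ℕ => (8 / c) * ((Real.sqrt 2)⁻¹) ^ j) :=
    (summable_geometric_of_lt_one (by positivity) (inv_lt_one_of_one_lt₀ hs2')).mul_left _
  have hne : (∑' j, μ {ω | (∑ k ∈ range (2 ^ (j + j₀) + 1), X A k) ω < T (2 ^ (j + j₀) + 1) / 2}) ≠ ∞ :=
    ne_top_of_le_ne_top hsum.tsum_ofReal_ne_top (ENNReal.tsum_le_tsum hbound)
  filter_upwards [ae_eventually_notMem hne] with ω hω
  rw [eventually_atTop] at hω ⊢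
  obtain ⟨J, hJ⟩ := hω
  refine ⟨2 ^ (J + j₀), fun N hN => ?_⟩
  have hNpos : N ≠ 0 := by
    have := Nat.one_le_two_pow (n := J + j₀)
    omega
  set i := Nat.log 2 N with hi
  have h1 : 2 ^ i ≤ N := Nat.pow_log_le_self 2 hNpos
  have h2 : N < 2 ^ (i + 1) := Nat.lt_pow_succ_log_self (by norm_num) N
  have h3 : J + j₀ ≤ i := Nat.le_log_of_pow_le (by norm_num) hN
  have h4 := hJ (i - j₀) (by omega)
  rw [not_lt, show i - j₀ + j₀ = i by omega] at h4
  have h5 := hN₀ (2 ^ i) (hbig i (by omega))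
  have h6 := log_two_pow N i (by omega) h1 h2
  have h7 : (∑ k ∈ range (2 ^ i + 1), X A k) ω ≤ (∑ k ∈ range (N + 1), X A k) ω := by
    rw [← cnt_eq, ← cnt_eq]
    have : range (2 ^ i + 1) ⊆ range (N + 1) := Finset.range_subset_range.2 (by omega)
    exact_mod_cast Finset.card_le_card (Finset.filter_subset_filter _ this)
  have h8 : (((range (N + 1)).filter (fun k => k ∈ A ω)).card : ℝ) = (∑ k ∈ range (N + 1), X A k) ω :=
    cnt_eq A (N + 1) ω
  have h9 : c / 4 * Real.sqrt (N * Real.log N) ≤ (∑ k ∈ range (N + 1), X A k) ω := by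
    have h10 : c / 4 * Real.sqrt (N * Real.log N) ≤
        c / 4 * (2 * Real.sqrt (((2 ^ i : ℕ) : ℝ) * Real.log ((2 ^ i : ℕ) : ℝ))) :=
      mul_le_mul_of_nonneg_left h6 (by positivity)
    have h11 : T (2 ^ i + 1) = ∑ k ∈ range (2 ^ i + 1), μ.real {ω | k ∈ A ω} := rfl
    rw [h11] at h4
    linarith
  rw [← h8] at h9
  simpa using h9

end Pool.Agent.V5helper9.IR
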