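import Pool.Agent.V5helper49.IR.Stm2
import Pool.Agent.V5helper12.IR.CHE

/-!
# Project IR, part 2, piece CHE2 (helper9; adapted from `V5helper12.IR.CHE`)
-/

set_option autoImplicit false

namespace Pool.Agent.V5helper9.IR

open Finset Pool.Agent.V5helper49.IR Pool.Agent.V5helper12.IR

lemma qq_sum_le {p : ℕ → ℝ} (hp : ∀ k, 0 ≤ p k ∧ p k ≤ 1) (M j : ℕ) (L : Finset ℕ)
    (h0 : ∀ k, M ≤ k → p k = 0) : ∑ n ∈ L, qq p n j ≤ ∑ k ∈ range M, p k := by
  classical
  have h1 : ∑ n ∈ L, qq p n j = ∑ n ∈ L.filter (fun n => j ≤ n), p (n - j) := by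
    rw [Finset.sum_filter]
    rfl
  have h2 : ∑ n ∈ L.filter (fun n => j ≤ n), p (n - j) =
      ∑ i ∈ (L.filter (fun n => j ≤ n)).image (fun n => n - j), p i := by
    rw [Finset.sum_image]
    intro a ha b hb hab
    have ha' := (Finset.mem_filter.1 (Finset.mem_coe.1 ha)).2
    have hb' := (Finset.mem_filter.1 (Finset.mem_coe.1 hb)).2
    simp only at hab
    omega
  rw [h1, h2]
  refine (Finset.sum_le_sum_of_subset_of_nonneg
    (Finset.subset_union_left (s₂ := range M)) fun i _ _ => (hp i).1).trans (le_of_eq ?_)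
  refine (Finset.sum_subset Finset.subset_union_right fun x _ hx => h0 x ?_).symm
  rw [Finset.mem_range, not_lt] at hx
  exact hx

open Classical in
/-- **CHE2** -/
theorem t_CHE2 (h : S_COV2) : S_CHE2 := by
  intro p hp K k₀ M L h0 m hm hmL
  obtain ⟨f, hf⟩ : ∃ f : ℕ → Finset ℕ → ℝ, f = fun n B => if K ≤ rr k₀ n B then 1 else 0 := ⟨_, rfl⟩
  obtain ⟨e, he⟩ : ∃ e : ℕ → ℝ, e = fun n => EB p M (f n) := ⟨_, rfl⟩
  obtain ⟨cw, hcw⟩ : ∃ cw : ℕ → ℕ → ℝ, cw = fun n m => ∑ k ∈ range M, p k * qq p n k * qq p m k := ⟨_, rfl⟩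
  have hcw0 : ∀ n k, 0 ≤ cw n k := by
    intro n k
    rw [hcw]
    exact sum_nonneg fun j _ => mul_nonneg (mul_nonneg (hp j).1 (qq_nonneg hp n j)) (qq_nonneg hp k j)
  have hf01 : ∀ n B, f n B * f n B = f n B := by
    intro n B
    rw [hf]
    dsimp only
    split_ifs <;> simp
  have hf0 : ∀ n B, 0 ≤ f n B := by
    intro n B
    rw [hf]
    dsimp only
    split_ifs <;> norm_num
  have he0 : ∀ n, 0 ≤ e n := by
    intro n
    rw [he]
    dsimp only
    have := EB_mono hp M (fun _ => (0 : ℝ)) (f n) (hf0 n)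
    rwa [EB_const] at this
  obtain ⟨μ, hμ⟩ : ∃ μ : ℝ, μ = ∑ n ∈ L, e n := ⟨_, rfl⟩
  have hmμ : m ≤ μ := by
    rw [hμ, he, hf]
    exact hmL
  have hμ0 : 0 < μ := hm.trans_le hmμ
  obtain ⟨C, hC⟩ : ∃ C : ℝ, C = ∑ n ∈ L, ∑ k ∈ L, cw n k := ⟨_, rfl⟩
  have hC0 : 0 ≤ C := by
    rw [hC]
    exact sum_nonneg fun n _ => sum_nonneg fun k _ => hcw0 n k
  have hS0 : 0 ≤ ∑ k ∈ range M, p k := sum_nonneg fun k _ => (hp k).1
  have hCS : C ≤ (∑ k ∈ range M, p k) ^ 3 := by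
    have h1 : C = ∑ j ∈ range M, p j * ((∑ n ∈ L, qq p n j) * (∑ k ∈ L, qq p k j)) := by
      rw [hC, hcw]
      simp only
      have e1 : ∀ n ∈ L, ∑ k ∈ L, ∑ j ∈ range M, p j * qq p n j * qq p k j =
          ∑ j ∈ range M, ∑ k ∈ L, p j * qq p n j * qq p k j := fun n _ => sum_comm
      rw [sum_congr rfl e1, sum_comm]
      refine sum_congr rfl fun j _ => ?_
      rw [sum_mul_sum, mul_sum]
      refine sum_congr rfl fun n _ => ?_
      rw [mul_sum]
      refine sum_congr rfl fun k _ => ?_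
      ring
    rw [h1]
    calc ∑ j ∈ range M, p j * ((∑ n ∈ L, qq p n j) * (∑ k ∈ L, qq p k j))
        ≤ ∑ j ∈ range M, p j * ((∑ k ∈ range M, p k) * (∑ k ∈ range M, p k)) := by
          refine sum_le_sum fun j _ => mul_le_mul_of_nonneg_left ?_ (hp j).1
          have h2 := qq_sum_le hp M j L h0
          exact mul_le_mul h2 h2 (sum_nonneg fun n _ => qq_nonneg hp n j) hS0
      _ = (∑ k ∈ range M, p k) ^ 3 := by
          rw [← sum_mul]
          ring
  have hcov : ∀ n ∈ L, ∀ k ∈ L, EB p M (fun B => f n B * f k B) ≤ e n * e k + cw n k + if n = k then e n else 0 := by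
    intro n hn k hk
    by_cases hnk : n = k
    · subst hnk
      simp only [hf01, if_true]
      have h1 : EB p M (fun B => f n B) = e n := by rw [he]
      rw [h1]
      have := hcw0 n n
      nlinarith [he0 n]
    · rw [if_neg hnk, add_zero]
      have h1 := h p hp K k₀ M n k hnk
      rw [he, hf, hcw]
      exact h1
  have hS : ∑ n ∈ L, ∑ k ∈ L, EB p M (fun B => f n B * f k B) ≤ μ ^ 2 + C + μ := by
    have h1 := sum_le_sum fun n hn => sum_le_sum fun k hk => hcov n hn k hk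
    refine h1.trans (le_of_eq ?_)
    simp only [sum_add_distrib]
    rw [← hC]
    congr 1
    · congr 1
      rw [pow_two, hμ, sum_mul_sum]
    · rw [hμ]
      refine sum_congr rfl fun n hn => ?_
      rw [sum_ite_eq, if_pos hn]
  have hpt : ∀ B : Finset ℕ, (if ∀ n ∈ L, rr k₀ n B < K then (1 : ℝ) else 0) ≤
      1 / μ ^ 2 * (∑ n ∈ L, ∑ k ∈ L, f n B * f k B + ((-2 * μ) * ∑ n ∈ L, f n B + μ ^ 2)) := by
    intro B
    rw [← sum_mul_sum]
    obtain ⟨Z, hZ'⟩ : ∃ Z, Z = ∑ n ∈ L, f n B := ⟨_, rfl⟩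
    rw [← hZ']
    have h1 : Z * Z + ((-2 * μ) * Z + μ ^ 2) = (μ - Z) ^ 2 := by ring
    rw [h1]
    split_ifs with hlt
    · have hZ0 : Z = 0 := by
        rw [hZ', hf]
        refine sum_eq_zero fun n hn => ?_
        have := hlt n hn
        simp only
        rw [if_neg (by omega)]
      rw [hZ0, sub_zero, one_div, inv_mul_cancel₀ (by positivity)]
    · positivity
  have h1 := EB_mono hp M _ _ hpt
  rw [EB_mul, EB_add, EB_add, EB_mul, EB_const, EB_sum, EB_sum] at h1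
  have h2 : ∀ n ∈ L, EB p M (fun B => ∑ k ∈ L, f n B * f k B) = ∑ k ∈ L, EB p M (fun B => f n B * f k B) :=
    fun n _ => EB_sum p M L fun k B => f n B * f k B
  rw [sum_congr rfl h2] at h1
  have h3 : ∑ i ∈ L, EB p M (f i) = μ := by rw [hμ, he]
  rw [h3] at h1
  refine h1.trans ?_
  have h4 : (0 : ℝ) < 1 / μ ^ 2 := by positivity
  have h5 : 1 / μ ^ 2 * (∑ n ∈ L, ∑ k ∈ L, EB p M (fun B => f n B * f k B) + ((-2 * μ) * μ + μ ^ 2)) ≤
      1 / μ ^ 2 * (μ + C) := mul_le_mul_of_nonneg_left (by nlinarith) h4.le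
  refine h5.trans ?_
  have h6 : 1 / μ ^ 2 * (μ + C) = 1 / μ + C / μ ^ 2 := by
    field_simp
  rw [h6]
  refine add_le_add (one_div_le_one_div_of_le hm hmμ) ?_
  calc C / μ ^ 2 ≤ C / m ^ 2 :=
        div_le_div_of_nonneg_left hC0 (by positivity) (pow_le_pow_left₀ hm.le hmμ 2)
    _ ≤ (∑ k ∈ range M, p k) ^ 3 / m ^ 2 := div_le_div_of_nonneg_right hCS (by positivity)

end Pool.Agent.V5helper9.IR
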